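import Pool.Agent.Lib.MP_31dc4f_pr.Final

/-!
# Diagonal limit of products of projected Haar unitaries

For independent Haar unitaries `S_1, S_2, …` in `U(N)`, a rank `N-1` orthogonal projection `P_N`
and `B_L = (P S_L) ⋯ (P S_1)`, the empirical distribution of the eigenvalues of `B_Lᴴ B_L`
converges in probability to `μ_τ` when `L_N / N → τ`.
-/

open MeasureTheory ProbabilityTheory Filter Topology Matrix

namespace Pool.Agent.Results.MP_31dc4f_pr.DiagonalLimit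

/-- The product `B_l = (Q S_{l-1}) (Q S_{l-2}) ⋯ (Q S_0)` of `l` factors, with `B_0 = 1`
(the sequence of unitaries is indexed from `0`). -/
def prodB {N : ℕ} (Q : Matrix (Fin N) (Fin N) ℂ) (S : ℕ → Matrix.unitaryGroup (Fin N) ℂ) :
    ℕ → Matrix (Fin N) (Fin N) ℂ
  | 0 => 1
  | (l + 1) => (Q * (S l : Matrix (Fin N) (Fin N) ℂ)) * prodB Q S l

/-- The empirical distribution `(1/N) ∑_k δ_{T_k}` of the `N` eigenvalues `T_k` of `Bᴴ B`,
i.e. of the squared singular values of `B`. -/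
noncomputable def empirical {N : ℕ} (B : Matrix (Fin N) (Fin N) ℂ) : Measure ℝ :=
  (N : ENNReal)⁻¹ • ∑ k : Fin N,
    Measure.dirac ((isHermitian_conjTranspose_mul_self B).eigenvalues k)

/-- The moments `m_p(τ) = e^{-pτ} ∑_{k=0}^{p-1} (1 - k/p) (pτ)^k / k!` of `μ_τ`. -/
noncomputable def limMoment (τ : ℝ) (p : ℕ) : ℝ :=
  Real.exp (-(p * τ)) * ∑ k ∈ Finset.range p, (1 - (k : ℝ) / p) * ((p * τ) ^ k / k.factorial)

lemma prodB_eq {N : ℕ} (Q : Matrix (Fin N) (Fin N) ℂ) (S : ℕ → Matrix.unitaryGroup (Fin N) ℂ)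
    (l : ℕ) : prodB Q S l = Lib.MP_31dc4f_pr.prodB Q S l := by
  induction l with
  | zero => rfl
  | succ l ih => rw [prodB, Lib.MP_31dc4f_pr.prodB, ih]

lemma empirical_eq {N : ℕ} (B : Matrix (Fin N) (Fin N) ℂ) :
    empirical B = Lib.MP_31dc4f_pr.empM B := rfl

lemma limMoment_eq (τ : ℝ) (p : ℕ) (hp : 1 ≤ p) :
    limMoment τ p = Lib.MP_31dc4f_pr.mom τ p := by
  unfold limMoment Lib.MP_31dc4f_pr.mom Lib.MP_31dc4f_pr.bC
  rw [if_neg (by omega)]
  congr 1
  refine Finset.sum_congr rfl fun k _ => ?_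
  rw [mul_div_assoc]

/-- **Diagonal limit.** For every `τ > 0` there is a probability measure `μ` on `[0,1]` with
moments `m_p(τ)` such that, for every sequence `L_N` of integers with `L_N / N → τ`, every choice
of rank `N-1` orthogonal projections and every family of independent Haar unitaries, the empirical
distribution of the eigenvalues of `B_{L_N}ᴴ B_{L_N}` converges to `μ` in probability. -/
theorem result :
    ∀ τ : ℝ, 0 < τ → ∃ μ : Measure ℝ, IsProbabilityMeasure μ ∧ μ (Set.Icc 0 1)ᶜ = 0 ∧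
      (∀ p : ℕ, 1 ≤ p → ∫ x, x ^ p ∂μ = limMoment τ p) ∧
      ∀ L : ℕ → ℕ, Tendsto (fun N => (L N : ℝ) / N) atTop (𝓝 τ) →
      ∀ (Ω : ℕ → Type*) [∀ N, MeasurableSpace (Ω N)] (P : ∀ N, Measure (Ω N))
        [∀ N, IsProbabilityMeasure (P N)]
        [∀ N, MeasurableSpace (Matrix.unitaryGroup (Fin N) ℂ)]
        [∀ N, BorelSpace (Matrix.unitaryGroup (Fin N) ℂ)]
        (S : ∀ N, ℕ → Ω N → Matrix.unitaryGroup (Fin N) ℂ)
        (Q : ∀ N, Matrix (Fin N) (Fin N) ℂ),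
        (∀ N, 2 ≤ N → ∀ i, Measurable (S N i)) →
        (∀ N, 2 ≤ N → iIndepFun (S N) (P N)) →
        (∀ N, 2 ≤ N → ∀ i, ((P N).map (S N i)).IsHaarMeasure) →
        (∀ N, 2 ≤ N → (Q N).IsHermitian ∧ Q N * Q N = Q N ∧ (Q N).rank = N - 1) →
        ∀ f : ℝ → ℝ, ContinuousOn f (Set.Icc 0 1) → ∀ ε : ℝ, 0 < ε →
          Tendsto (fun N => P N {ω | ε < |∫ x, f x ∂(empirical
            (prodB (Q N) (fun i => S N i ω) (L N))) - ∫ x, f x ∂μ|}) atTop (𝓝 0) := by
  intro τ hτ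
  obtain ⟨μ, hμp, hμs, hμm⟩ := Lib.MP_31dc4f_pr.exists_mu τ hτ.le
  refine ⟨μ, hμp, hμs, fun p hp => by rw [hμm, limMoment_eq τ p hp], ?_⟩
  intro L hL Ω _ P _ _ _ S Q hm hind hhaar hQ f hf ε hε
  obtain ⟨q, hq⟩ := exists_polynomial_near_of_continuousOn 0 1 f hf (ε / 4) (by positivity)
  have hlim : Tendsto (fun N => ENNReal.ofReal ((2 / ε) * ∑ i ∈ Finset.range (q.natDegree + 1),
      |q.coeff i| * Lib.MP_31dc4f_pr.errB τ N i (L N))) atTop (𝓝 0) := by
    rw [← ENNReal.ofReal_zero]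
    apply ENNReal.tendsto_ofReal
    have h1 := tendsto_finsetSum (Finset.range (q.natDegree + 1)) fun i _ =>
      (Lib.MP_31dc4f_pr.tendsto_errB τ L hL i).const_mul (|q.coeff i|)
    have h2 := h1.const_mul (2 / ε)
    simpa using h2
  refine tendsto_of_tendsto_of_tendsto_of_le_of_le' tendsto_const_nhds hlim
    (Eventually.of_forall fun N => bot_le) ?_
  filter_upwards [eventually_ge_atTop 2] with N hN
  have hinv : ∀ i, ((P N).map (S N i)).IsMulLeftInvariant := fun i => (hhaar N hN i).toIsMulLeftInvariant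
  have h := Lib.MP_31dc4f_pr.prob_le (P N) (S N) (hm N hN) (hind N hN) hinv (Q N) (hQ N hN).1
    (hQ N hN).2.1 (by omega) (hQ N hN).2.2 τ hτ.le μ hμs hμm f hf ε hε q hq (L N)
  simp only [empirical_eq, prodB_eq]
  exact h

end Pool.Agent.Results.MP_31dc4f_pr.DiagonalLimit
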